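import Pool.Agent.H96.AL.Targets4

open Topology Set Filter Real

namespace Pool.Agent.H96.AL

theorem as_ (hG1 : T_G1) (hG2 : T_G2) (hFN : T_FN) (hZS : T_ZS) : T_AS := by
  intro X _ D hX hd
  obtain ⟨k, Z, h0, hmono, hk, hext, hne, hs⟩ := hZS X D hX (hFN X D hX hd)
  have huniv : ∀ j, k ≤ j → Z j = univ := fun j hj =>
    eq_univ_of_univ_subset (by rw [← hk]; exact hmono hj)
  have hstrict : ∀ w w' : X, (∀ i : Fin k, w' ∈ Z (i + 1) ↔ w ∈ Z (i + 1)) →
      ∀ j, w' ∈ Z j ↔ w ∈ Z j := by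
    intro w w' h j
    rcases Nat.eq_zero_or_pos j with rfl | hj
    · simp [h0]
    · obtain ⟨i, rfl⟩ : ∃ i, j = i + 1 := ⟨j - 1, by omega⟩
      by_cases hi : i < k
      · exact h ⟨i, hi⟩
      · simp [huniv (i + 1) (by omega)]
  refine ⟨k, Z, ⟨fun j => (hext j).1, hmono, h0, hk, ?_, ?_⟩, hs⟩
  · intro x U' hU' hx
    obtain ⟨U, hU, hxU, hUU, hc⟩ := hG1 X D hX hd k (fun i => Z (i + 1))
      (fun i => ⟨hext _, hne _ (Nat.succ_pos _) ⟨x⟩⟩) x U' hU' hx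
    refine ⟨U, hU, hxU, hUU, fun O hO hxO => ?_⟩
    obtain ⟨h, hcont, h01, hst⟩ := hc O hO hxO
    exact ⟨h, ⟨hcont, fun w hw => (h01 w hw).1, fun w hw t ht => (hst w hw t ht).1,
      fun w hw t ht => hstrict w _ (hst w hw t ht).2⟩, fun w hw => (h01 w hw).2⟩
  · intro j x hx U' hU' hxU
    obtain ⟨i, hi, hij⟩ : ∃ i, i < k ∧ Z j = Z (i + 1) := by
      have hj : j ≠ 0 := by
        rintro rfl
        simp [h0] at hx
      have hk0 : k ≠ 0 := by
        rintro rfl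
        have : x ∈ Z 0 := by rw [hk]; trivial
        simp [h0] at this
      by_cases hjk : j ≤ k
      · exact ⟨j - 1, by omega, by congr 1; omega⟩
      · refine ⟨k - 1, by omega, ?_⟩
        rw [huniv j (by omega), huniv (k - 1 + 1) (by omega)]
    obtain ⟨U, hU, hxU', hUU, h, K, hK, hKU, hcont, h01, hst⟩ :=
      hG2 X D hX hd k (fun i => Z (i + 1)) (fun i => ⟨hext _, hne _ (Nat.succ_pos _) ⟨x⟩⟩)
        ⟨i, hi⟩ x (hij ▸ hx) U' hU' hxU
    simp only [← hij] at hKU hcont h01 hst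
    refine ⟨U, hU, hxU', hUU, h, ⟨hcont, fun w hw => (h01 w hw).1, ?_, ?_⟩, K, hK, hKU,
      fun w hw => (h01 w hw).2⟩
    · intro w hw t ht
      refine ⟨(hst w hw t ht).1, fun h' => hw.2 ?_⟩
      exact (hstrict w _ (hst w hw t ht).2 j).1 h'
    · intro w hw t ht
      exact hstrict w _ (hst w hw t ht).2

end Pool.Agent.H96.AL
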