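import Pool.Agent.H96.AL.Stmt

/-!
Definitions for the geometric half of MP_c9ef16_gt (curvature normalised to `-1`).
-/

open Topology Set Filter Real

namespace Pool.Agent.H96.AL

variable {X : Type} [MetricSpace X]

/-- Every two points are joined by a shortest path. -/
def Geo (X : Type) [MetricSpace X] : Prop := ∀ x y : X, ∃ γ : ℝ → X, IsGeod γ x y

/-- `m` lies between `x` and `y`. -/
def Btw (x m y : X) : Prop := dist x m + dist m y = dist x y

/-- Curvature `≥ -1`: comparison of a point on a side. -/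
def CB (X : Type) [MetricSpace X] : Prop :=
  ∀ q x y m : X, Btw x m y →
    sinh (dist m y) * cosh (dist q x) + sinh (dist x m) * cosh (dist q y)
      ≤ sinh (dist x y) * cosh (dist q m)

/-- Cosine of the comparison angle (hyperbolic plane) between the sides `a`, `b`, opposite to `c`. -/
noncomputable def cc (a b c : ℝ) : ℝ := (cosh a * cosh b - cosh c) / (sinh a * sinh b)

/-- Standing assumptions on the space, with an upper bound `D` for the diameter. -/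
structure Sp (X : Type) [MetricSpace X] (D : ℝ) : Prop where
  compact : CompactSpace X
  geo : Geo X
  cb : CB X
  diam : ∀ x y : X, dist x y ≤ D
  one_le : 1 ≤ D

/-- `g` is `Λ`-concave. -/
def SC (Λ : ℝ) (g : X → ℝ) : Prop :=
  ∀ x y m : X, ∀ t ∈ Icc (0 : ℝ) 1, dist x m = t * dist x y → dist m y = (1 - t) * dist x y →
    (1 - t) * g x + t * g y - Λ / 2 * t * (1 - t) * dist x y ^ 2 ≤ g m

/-- `g` is `L`-Lipschitz. -/
def Lip (L : ℝ) (g : X → ℝ) : Prop := ∀ x y : X, |g x - g y| ≤ L * dist x y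

/-- The derivative of `g` at `z` in the direction of `y` (along every shortest path, parametrised
by `[0,1]`) is at least `θ`. -/
def DGe (g : X → ℝ) (z y : X) (θ : ℝ) : Prop :=
  ∀ η : ℝ → X, IsGeod η z y → ∀ ε > 0, ∀ᶠ s in 𝓝[>] (0 : ℝ),
    g z + s * (θ - ε) ≤ g (η (s * dist z y))

/-- The ascending slope of `g` at `z` is at least `σ`. -/
def SlopeGe (g : X → ℝ) (z : X) (σ : ℝ) : Prop :=
  ∀ ε > 0, ∀ r > 0, ∃ w : X, w ≠ z ∧ dist z w < r ∧ (σ - ε) * dist z w ≤ g w - g z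

/-- Gradient curve of `g`. -/
structure IsFlow (L : ℝ) (g : X → ℝ) (α : ℝ → X) : Prop where
  lip : ∀ s t : ℝ, 0 ≤ s → 0 ≤ t → dist (α s) (α t) ≤ L * |s - t|
  evi : ∀ (y : X) (Θ : X → ℝ), Continuous Θ → (∀ z, DGe g z y (-Θ z)) →
    ∀ s t : ℝ, 0 ≤ s → s ≤ t →
      dist (α t) y ^ 2 / 2 - dist (α s) y ^ 2 / 2 ≤ ∫ r in s..t, Θ (α r)
  en1 : ∀ s t κ : ℝ, 0 ≤ s → s ≤ t → 0 ≤ κ →
    κ * dist (α s) (α t) - κ ^ 2 / 4 * (t - s) ≤ g (α t) - g (α s)
  en2 : ∀ (O : Set X) (σ : ℝ), IsOpen O → 0 ≤ σ → (∀ z ∈ O, SlopeGe g z σ) →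
    ∀ s t : ℝ, 0 ≤ s → s ≤ t → (∀ r ∈ Icc s t, α r ∈ O) →
      σ * dist (α s) (α t) ≤ g (α t) - g (α s) ∧ σ ^ 2 * (t - s) ≤ g (α t) - g (α s)

end Pool.Agent.H96.AL
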