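import Pool.Agent.H96.AL.Geometry
import Pool.Agent.H85.AU.Main
import Pool.Agent.H83.AT.All

/-!
MP_c9ef16_gt: the two halves together.
-/

namespace Pool.Agent.H96.AL

theorem t_topology : T_Topology :=
  Pool.Agent.H85.AU.topology' fun F _ _ _ _ _ hA =>
    ⟨Pool.Agent.H83.AT.shTop F hA, fun N A h => Pool.Agent.H83.AT.shTop_con F hA N A h⟩

theorem t_Q1 : Q1 := main t_GT t_topology

end Pool.Agent.H96.AL
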