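import Pool.Agent.H12.AL.G1
import Pool.Agent.H12.AL.HH
import Pool.Agent.H12.AL.MO
import Pool.Agent.H12.AL.PO
import Pool.Agent.H14.AL.CT
import Pool.Agent.H14.AL.GT
import Pool.Agent.H17.AL.CO
import Pool.Agent.H17.AL.DA
import Pool.Agent.H17.AL.RI
import Pool.Agent.H19.AL.AC
import Pool.Agent.H19.AL.FN
import Pool.Agent.H19.AL.RS
import Pool.Agent.H29.AL.FL
import Pool.Agent.H29.AL.SG
import Pool.Agent.H29.AL.ST
import Pool.Agent.H30.AL.BC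
import Pool.Agent.H30.AL.BS
import Pool.Agent.H30.AL.NS
import Pool.Agent.H30.AL.PE
import Pool.Agent.H30.AL.SA
import Pool.Agent.H34.AL.DS
import Pool.Agent.H35.AL.AF
import Pool.Agent.H35.AL.CH
import Pool.Agent.H35.AL.CM
import Pool.Agent.H35.AL.DM
import Pool.Agent.H35.AL.PL
import Pool.Agent.H35.AL.QQ
import Pool.Agent.H39.AL.CF
import Pool.Agent.H40.AL.BL
import Pool.Agent.H47.AL.XS
import Pool.Agent.H48.AL.CA
import Pool.Agent.H48.AL.RR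
import Pool.Agent.H52.AL.BM
import Pool.Agent.H54.AL.SB
import Pool.Agent.H58.AL.EX
import Pool.Agent.H58.AL.LP
import Pool.Agent.H58.AL.NE
import Pool.Agent.H59.AL.EQ
import Pool.Agent.H59.AL.HG
import Pool.Agent.H6.AL.G2
import Pool.Agent.H6.AL.NB
import Pool.Agent.H6.AL.ZS
import Pool.Agent.H62.AL.GD
import Pool.Agent.H62.AL.HD
import Pool.Agent.H62.AL.IN
import Pool.Agent.H67.AL.DR
import Pool.Agent.H67.AL.MV
import Pool.Agent.H67.AL.RT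
import Pool.Agent.H69.AL.CE
import Pool.Agent.H69.AL.GA
import Pool.Agent.H69.AL.UN
import Pool.Agent.H76.AL.EL
import Pool.Agent.H76.AL.OP
import Pool.Agent.H78.AL.CC
import Pool.Agent.H78.AL.SD
import Pool.Agent.H81.AL.FO
import Pool.Agent.H81.AL.PD
import Pool.Agent.H83.AL.OS
import Pool.Agent.H87.AL.DN
import Pool.Agent.H87.AL.SF
import Pool.Agent.H89.AL.DH
import Pool.Agent.H95.AL.MS
import Pool.Agent.H96.AL.AS
import Pool.Agent.H96.AL.TR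

/-!
The geometric half of MP_c9ef16_gt: assembly of the modules.
-/

namespace Pool.Agent.H96.AL

theorem t_MO : T_MO :=
  Pool.Agent.H12.AL.mo

theorem t_CC : T_CC :=
  Pool.Agent.H78.AL.cc

theorem t_OS : T_OS :=
  Pool.Agent.H83.AL.os_ t_CC

theorem t_HG : T_HG :=
  Pool.Agent.H59.AL.hg

theorem t_EL : T_EL :=
  Pool.Agent.H76.AL.el

theorem t_XS : T_XS :=
  Pool.Agent.H47.AL.xs t_HG t_MO t_EL

theorem t_QQ : T_QQ :=
  Pool.Agent.H35.AL.qq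

theorem t_NS : T_NS :=
  Pool.Agent.H30.AL.ns t_XS t_QQ t_EL

theorem t_HH : T_HH :=
  Pool.Agent.H12.AL.hh

theorem t_MV : T_MV :=
  Pool.Agent.H67.AL.mv t_HH t_XS

theorem t_OP : T_OP :=
  Pool.Agent.H76.AL.op t_MV

theorem t_DM : T_DM :=
  Pool.Agent.H35.AL.dm

theorem t_CH : T_CH :=
  Pool.Agent.H35.AL.ch t_OS t_NS t_OP t_DM

theorem t_PL : T_PL :=
  Pool.Agent.H35.AL.pl

theorem t_CO : T_CO :=
  Pool.Agent.H17.AL.co t_EL t_MO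

theorem t_CA : T_CA :=
  Pool.Agent.H48.AL.pf_CA t_CO

theorem t_PG : T_PG :=
  Pool.Agent.H83.AL.pg t_CH t_PL t_CO t_CA

theorem t_DR : T_DR :=
  Pool.Agent.H67.AL.dr t_MO t_PG t_EL

theorem t_SD : T_SD :=
  Pool.Agent.H78.AL.sd t_QQ

theorem t_EX : T_EX :=
  Pool.Agent.H58.AL.ex

theorem t_EQ : T_EQ :=
  Pool.Agent.H59.AL.eq t_EX t_EL

theorem t_FO : T_FO :=
  Pool.Agent.H81.AL.fo

theorem t_GD : T_GD :=
  Pool.Agent.H62.AL.gd t_EQ t_FO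

theorem t_GA : T_GA :=
  Pool.Agent.H69.AL.ga

theorem t_SA : T_SA :=
  Pool.Agent.H30.AL.sa

theorem t_CF : T_CF :=
  Pool.Agent.H39.AL.cf t_DR t_SD t_GD t_GA t_SA

theorem t_DS : T_DS :=
  Pool.Agent.H34.AL.pf_DS

theorem t_CT : T_CT :=
  Pool.Agent.H14.AL.ct t_DS

theorem t_ST : T_ST :=
  Pool.Agent.H29.AL.st t_HG t_MO t_CC

theorem t_SG : T_SG :=
  Pool.Agent.H29.AL.sg t_ST t_SD t_EL

theorem t_AF : T_AF :=
  Pool.Agent.H35.AL.af t_SG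

theorem t_RI : T_RI :=
  Pool.Agent.H17.AL.ri

theorem t_CM : T_CM :=
  Pool.Agent.H35.AL.cm t_DS t_RI

theorem t_FL : T_FL :=
  Pool.Agent.H29.AL.fl t_AF t_CM t_RI

theorem t_HD : T_HD :=
  Pool.Agent.H62.AL.hd_ t_QQ t_EX t_FO

theorem t_LP : T_LP :=
  Pool.Agent.H58.AL.lp t_HD t_GD

theorem t_PE : T_PE :=
  Pool.Agent.H30.AL.pe t_LP

theorem t_DA : T_DA :=
  Pool.Agent.H17.AL.da

theorem t_PD : T_PD :=
  Pool.Agent.H81.AL.pd t_LP t_DS t_DA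

theorem t_NE : T_NE :=
  Pool.Agent.H58.AL.ne

theorem t_IN : T_IN :=
  Pool.Agent.H62.AL.in_ t_DS t_FO

theorem t_SB : T_SB :=
  Pool.Agent.H54.AL.sb t_RI

theorem t_SF : T_SF :=
  Pool.Agent.H87.AL.sf t_FL t_PE t_PD t_NE t_IN t_SB t_DS

theorem t_G1 : T_G1 :=
  Pool.Agent.H12.AL.g1 t_CF t_CT t_FL t_SF

theorem t_BM : T_BM :=
  Pool.Agent.H52.AL.bm t_HH t_HG t_QQ t_EL

theorem t_BC : T_BC :=
  Pool.Agent.H30.AL.bc t_BM t_CO

theorem t_BS : T_BS :=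
  Pool.Agent.H30.AL.bs t_QQ t_EL

theorem t_BL : T_BL :=
  Pool.Agent.H40.AL.bl t_BC t_BS t_PG

theorem t_MS : T_MS :=
  Pool.Agent.H95.AL.ms t_EL

theorem t_RR : T_RR :=
  Pool.Agent.H48.AL.pf_RR t_BL t_MS t_EX t_FO t_EL

theorem t_PO : T_PO :=
  Pool.Agent.H12.AL.po t_RR

theorem t_G2 : T_G2 :=
  Pool.Agent.H6.AL.g2 t_PO t_SF t_HD t_GD t_GA t_SA t_FL t_FO

theorem t_CE : T_CE :=
  Pool.Agent.H69.AL.ce t_FL t_SD

theorem t_UN : T_UN :=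
  Pool.Agent.H69.AL.un t_CE t_IN t_GD t_SD

theorem t_DN : T_DN :=
  Pool.Agent.H87.AL.dn t_FL t_SD t_GD t_CE t_IN t_UN t_PE t_PD t_NE t_SB t_DS

theorem t_AC : T_AC :=
  Pool.Agent.H19.AL.ac t_DR t_DN t_EX t_FO t_UN

theorem t_NB : T_NB :=
  Pool.Agent.H6.AL.nb t_CF t_CT t_FL t_IN t_UN

theorem t_DH : T_DH :=
  Pool.Agent.H89.AL.dh t_AC t_NB t_DN t_UN

theorem t_FN : T_FN :=
  Pool.Agent.H19.AL.fn t_AC t_NB t_DH t_PO t_FL t_IN t_UN t_HD t_GD t_GA t_SA t_FO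

theorem t_ZS : T_ZS :=
  Pool.Agent.H6.AL.zs t_UN

theorem t_AS : T_AS :=
  Pool.Agent.H96.AL.as_ t_G1 t_G2 t_FN t_ZS

theorem t_RS : T_RS :=
  Pool.Agent.H19.AL.rs

theorem t_RT : T_RT :=
  Pool.Agent.H67.AL.rt

theorem t_TR : T_TR :=
  Pool.Agent.H96.AL.tr

theorem t_GT : T_Geometry :=
  Pool.Agent.H14.AL.gt t_AS t_RS t_RT t_TR

end Pool.Agent.H96.AL
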