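import Pool.Agent.H96.AL.Stmt

/-!
Interface between the geometric half (Alexandrov spaces give stratum preserving homotopies) and
the topological half (stratum preserving homotopies give the finiteness theorem).
-/

open CategoryTheory TopologicalSpace Topology Set Filter

namespace Pool.Agent.H96.AL

/-- `h` is a homotopy from the inclusion `W ⊆ W'` through maps `W → W'` which preserves every
`Z j` and the complement of every `Z j`. -/
structure StrictHtpy {X : Type*} [TopologicalSpace X] (Z : ℕ → Set X) (W W' : Set X)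
    (h : X → ℝ → X) : Prop where
  cont : ContinuousOn (fun p : X × ℝ => h p.1 p.2) (W ×ˢ Icc (0 : ℝ) 1)
  init : ∀ w ∈ W, h w 0 = w
  maps : ∀ w ∈ W, ∀ t ∈ Icc (0 : ℝ) 1, h w t ∈ W'
  strict : ∀ w ∈ W, ∀ t ∈ Icc (0 : ℝ) 1, ∀ j, h w t ∈ Z j ↔ w ∈ Z j

/-- The topological input: a finite filtration by closed sets with two kinds of strict
homotopies. -/
structure ATI {X : Type*} [TopologicalSpace X] (m : ℕ) (Z : ℕ → Set X) : Prop where
  closed : ∀ j, IsClosed (Z j)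
  mono : Monotone Z
  zero : Z 0 = ∅
  top : Z m = univ
  contract : ∀ x : X, ∀ U' : Set X, IsOpen U' → x ∈ U' → ∃ U : Set X, IsOpen U ∧ x ∈ U ∧ U ⊆ U' ∧
    ∀ O : Set X, IsOpen O → x ∈ O → ∃ h : X → ℝ → X, StrictHtpy Z U U' h ∧ ∀ w ∈ U, h w 1 ∈ O
  push : ∀ j, ∀ x ∈ Z j, ∀ U' : Set X, IsOpen U' → x ∈ U' → ∃ U : Set X, IsOpen U ∧ x ∈ U ∧
    U ⊆ U' ∧ ∃ h : X → ℝ → X, StrictHtpy Z (U \ Z j) (U' \ Z j) h ∧
      ∃ K : Set X, IsCompact K ∧ K ⊆ U' \ Z j ∧ ∀ w ∈ U \ Z j, h w 1 ∈ K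

/-- Target of the geometric half. -/
def T_Geometry : Prop :=
  ∀ (X : Type) [MetricSpace X], IsCompactAlexandrov X →
    ∃ (m : ℕ) (Z : ℕ → Set X), ATI m Z ∧
      ∀ j, Z (j + 1) \ Z j = ∅ ∨ ∃ x : X, Z (j + 1) \ Z j = stratum x

/-- Target of the topological half. -/
def T_Topology : Prop :=
  ∀ (F : Type) [Field F] [Finite F] (X : TopCat.{0}) [CompactSpace X] [T2Space X]
    (m : ℕ) (Z : ℕ → Set X), ATI m Z → ∀ N : ℕ,
    ∃ T : Set (D F X), T.Finite ∧ ∀ K : D F X,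
      (∀ i : ℤ, i ∉ Icc (-(N : ℤ)) N → Limits.IsZero (cohSheaf F K i)) →
      (∀ (i : ℤ) (j : ℕ), IsLocalSystem F (restr F (cohSheaf F K i) (Z (j + 1) \ Z j)) N) →
      ∃ L ∈ T, Nonempty (K ≅ L)

theorem main (hG : T_Geometry) (hT : T_Topology) : Q1 := by
  intro F _ _ X _ hX N
  obtain ⟨m, Z, hZ, hs⟩ := hG X hX
  have := hX.compact
  obtain ⟨T, hT1, hT2⟩ := hT F (TopCat.of X) m Z hZ N
  refine ⟨T, hT1, fun K hK => hT2 K hK.1 fun i j => ?_⟩
  obtain h | ⟨x, h⟩ := hs j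
  · intro p
    exact absurd p.2 (fun hp => by
      have : (p : X) ∈ (∅ : Set X) := h ▸ hp
      exact this)
  · have := hK.2 i x
    rw [← h] at this
    exact this

end Pool.Agent.H96.AL
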