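import Mathlib

/-!
Statement layer for MP_c9ef16_gt: compact finite-dimensional Alexandrov spaces, extremal subsets,
the extremal stratification, constructible complexes.
-/

open CategoryTheory TopologicalSpace Topology Set Filter

namespace Pool.Agent.H96.AL

/-! ### Alexandrov spaces -/

section Geometry

variable {X : Type*} [MetricSpace X]

/-- `γ` restricted to `[0, dist x y]` is a shortest path from `x` to `y` parametrised by
arclength. -/
def IsGeod (γ : ℝ → X) (x y : X) : Prop :=
  γ 0 = x ∧ γ (dist x y) = y ∧
    ∀ s ∈ Icc (0 : ℝ) (dist x y), ∀ t ∈ Icc (0 : ℝ) (dist x y), dist (γ s) (γ t) = |s - t|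

/-- Curvature `≥ -k²` (`k > 0`) in the sense of Alexandrov, in the form of the comparison of a
point `m` on a shortest path from `x` to `y` with the hyperbolic plane of curvature `-k²`: if
`m̃` is the point of the side `x̃ỹ` of the comparison triangle `q̃x̃ỹ` with `|x̃m̃| = |xm|`, then
`|qm| ≥ |q̃m̃|`. (In the hyperbolic plane
`sinh(k|xy|) cosh(k|qm|) = sinh(k|my|) cosh(k|qx|) + sinh(k|xm|) cosh(k|qy|)`.) -/
def CBB (k : ℝ) (X : Type*) [MetricSpace X] : Prop :=
  ∀ q x y m : X, dist x m + dist m y = dist x y →
    Real.sinh (k * dist m y) * Real.cosh (k * dist q x)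
      + Real.sinh (k * dist x m) * Real.cosh (k * dist q y)
      ≤ Real.sinh (k * dist x y) * Real.cosh (k * dist q m)

/-- A compact finite-dimensional Alexandrov space (with curvature bounded below by some real
number). -/
structure IsCompactAlexandrov (X : Type*) [MetricSpace X] : Prop where
  compact : CompactSpace X
  geodesic : ∀ x y : X, ∃ γ : ℝ → X, IsGeod γ x y
  curvature : ∃ k : ℝ, 0 < k ∧ CBB k X
  finiteDimensional : dimH (univ : Set X) < ⊤

/-- `p` is a critical point of the distance function from `q`:
`limsup_{x → p} (|qx| - |qp|) / |xp| ≤ 0`. -/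
def Critical (q p : X) : Prop :=
  ∀ ε > 0, ∀ᶠ x in 𝓝 p, dist q x ≤ dist q p + ε * dist x p

/-- Extremal subsets (Perelman–Petrunin). -/
def Extremal (E : Set X) : Prop :=
  IsClosed E ∧ ∀ q, q ∉ E → ∀ p ∈ E, IsLocalMinOn (fun x => dist q x) E p → Critical q p

/-- The intersection of all extremal subsets which contain `x`. -/
def hull (x : X) : Set X := ⋂₀ {E | Extremal E ∧ x ∈ E}

/-- The stratum of `x` in the extremal stratification. -/
def stratum (x : X) : Set X := {y | hull y = hull x}

end Geometry

/-! ### Constructible complexes -/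

section Sheaves

variable (F : Type) [Field F]

/-- Sheaves of `F`-vector spaces. -/
abbrev Sh (X : TopCat.{0}) := TopCat.Sheaf (ModuleCat.{0} F) X

/-- The restriction of a sheaf to a subset (with the subspace topology). -/
noncomputable def restr {X : TopCat.{0}} (A : Sh F X) (S : Set X) : Sh F (TopCat.of S) :=
  (TopCat.Sheaf.pullback (ModuleCat.{0} F)
    (TopCat.ofHom ⟨(Subtype.val : S → X), continuous_subtype_val⟩)).obj A

/-- The constant sheaf with value `V`. -/
noncomputable def constSh (X : TopCat.{0}) (V : ModuleCat.{0} F) : Sh F X :=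
  (constantSheaf (Opens.grothendieckTopology X) (ModuleCat.{0} F)).obj V

/-- `L` is a local system (a locally constant sheaf of finite-dimensional vector spaces)
of rank at most `N`. -/
def IsLocalSystem {X : TopCat.{0}} (L : Sh F X) (N : ℕ) : Prop :=
  ∀ x : X, ∃ U : Set X, IsOpen U ∧ x ∈ U ∧ ∃ V : ModuleCat.{0} F,
    Module.Finite F V ∧ Module.finrank F V ≤ N ∧
      Nonempty (restr F L U ≅ constSh F (TopCat.of U) V)

noncomputable instance (X : TopCat.{0}) : HasDerivedCategory.{1} (Sh F X) :=
  HasDerivedCategory.standard _

/-- The derived category of the category of sheaves of `F`-vector spaces on `X`; the bounded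
derived category is its full subcategory of objects with bounded cohomology. -/
abbrev D (X : TopCat.{0}) := DerivedCategory (Sh F X)

/-- The `i`-th cohomology sheaf. -/
noncomputable def cohSheaf {X : TopCat.{0}} (K : D F X) (i : ℤ) : Sh F X :=
  (DerivedCategory.homologyFunctor (Sh F X) i).obj K

/-- The objects of `D^b_c(Sh_F(X))` which occur in the question: the cohomology sheaves vanish
outside `[-N, N]`, and the restriction of every cohomology sheaf to every stratum of the extremal
stratification is a local system of rank at most `N`. -/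
def Bounded (X : Type) [MetricSpace X] (N : ℕ) (K : D F (TopCat.of X)) : Prop :=
  (∀ i : ℤ, i ∉ Icc (-(N : ℤ)) N → Limits.IsZero (cohSheaf F K i)) ∧
  ∀ (i : ℤ) (x : X), IsLocalSystem F (restr F (cohSheaf F K i) (stratum x)) N

end Sheaves

/-- Question Q1 of MP_c9ef16_gt. -/
def Q1 : Prop :=
  ∀ (F : Type) [Field F] [Finite F] (X : Type) [MetricSpace X], IsCompactAlexandrov X →
    ∀ N : ℕ, ∃ T : Set (D F (TopCat.of X)), T.Finite ∧
      ∀ K : D F (TopCat.of X), Bounded F X N K → ∃ L ∈ T, Nonempty (K ≅ L)

end Pool.Agent.H96.AL
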