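import Pool.Agent.H96.AL.Targets4

open Topology Set Filter Real

namespace Pool.Agent.H96.AL

theorem strictHtpy_transfer {X Y : Type} [TopologicalSpace X] [TopologicalSpace Y] (e : X ≃ₜ Y)
    (Z : ℕ → Set Y) (W W' : Set Y) (h : Y → ℝ → Y) (hh : StrictHtpy Z W W' h) :
    StrictHtpy (fun j => e ⁻¹' Z j) (e ⁻¹' W) (e ⁻¹' W') (fun x t => e.symm (h (e x) t)) where
  cont := by
    refine e.symm.continuous.comp_continuousOn
      (hh.cont.comp (f := fun p : X × ℝ => (e p.1, p.2)) (Continuous.continuousOn (by fun_prop))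
        ?_)
    intro p hp
    exact ⟨hp.1, hp.2⟩
  init := fun w hw => by simp [hh.init (e w) hw]
  maps := fun w hw t ht => by
    have := hh.maps (e w) hw t ht
    simpa using this
  strict := fun w hw t ht j => by
    have := hh.strict (e w) hw t ht j
    simpa using this

theorem tr : T_TR := by
  intro X Y _ _ e m Z hZ
  refine ⟨fun j => (hZ.closed j).preimage e.continuous, fun i j hij => preimage_mono (hZ.mono hij),
    ?_, ?_, ?_, ?_⟩
  · simp [hZ.zero]
  · simp [hZ.top]
  · intro x U' hU' hx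
    obtain ⟨V, hV, hxV, hVU, hc⟩ := hZ.contract (e x) (e.symm ⁻¹' U')
      (hU'.preimage e.symm.continuous) (by simpa using hx)
    refine ⟨e ⁻¹' V, hV.preimage e.continuous, hxV, fun w hw => by simpa using hVU hw, ?_⟩
    intro O hO hxO
    obtain ⟨h, hh, h1⟩ := hc (e.symm ⁻¹' O) (hO.preimage e.symm.continuous) (by simpa using hxO)
    refine ⟨fun x t => e.symm (h (e x) t), ?_, fun w hw => h1 (e w) hw⟩
    have := strictHtpy_transfer e Z V (e.symm ⁻¹' U') h hh
    have h2 : e ⁻¹' (e.symm ⁻¹' U') = U' := by ext; simp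
    rwa [h2] at this
  · intro j x hx U' hU' hxU
    obtain ⟨V, hV, hxV, hVU, h, hh, K, hK, hKU, h1⟩ := hZ.push j (e x) hx (e.symm ⁻¹' U')
      (hU'.preimage e.symm.continuous) (by simpa using hxU)
    refine ⟨e ⁻¹' V, hV.preimage e.continuous, hxV, fun w hw => by simpa using hVU hw,
      fun x t => e.symm (h (e x) t), ?_, e.symm '' K, hK.image e.symm.continuous, ?_, ?_⟩
    · have := strictHtpy_transfer e Z (V \ Z j) (e.symm ⁻¹' U' \ Z j) h hh
      have h2 : e ⁻¹' (e.symm ⁻¹' U' \ Z j) = U' \ e ⁻¹' Z j := by ext; simp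
      rwa [h2] at this
    · rintro _ ⟨k, hk, rfl⟩
      have := hKU hk
      exact ⟨by simpa using this.1, by simpa using this.2⟩
    · intro w hw
      exact ⟨_, h1 (e w) hw, rfl⟩

end Pool.Agent.H96.AL
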