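import Pool.Agent.H96.AL.Defs

/-!
Targets, wave 1: comparison inequalities and gradient flows.
-/

open Topology Set Filter Real

namespace Pool.Agent.H96.AL

variable {X : Type} [MetricSpace X]

/-! ### Comparison inequalities -/

/-- elementary bounds -/
def T_EL : Prop :=
  ∀ D : ℝ, ∀ x : ℝ, 0 ≤ x → x ≤ D →
    x ≤ sinh x ∧ sinh x ≤ x * cosh D ∧ x ^ 2 / 2 ≤ cosh x - 1 ∧ cosh x - 1 ≤ x ^ 2 / 2 * cosh D ∧
    cosh x - 1 ≤ x * sinh x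

/-- quadratic form of the comparison -/
def T_QQ : Prop :=
  ∀ (X : Type) [MetricSpace X], CB X → ∀ (q x y m : X) (t ρ : ℝ), t ∈ Icc (0 : ℝ) 1 →
    dist x m = t * dist x y → dist m y = (1 - t) * dist x y → dist q x ≤ ρ → dist q y ≤ ρ →
    (1 - t) * dist q x ^ 2 + t * dist q y ^ 2 - cosh ρ * t * (1 - t) * dist x y ^ 2
      ≤ dist q m ^ 2

/-- half the squared distance is semiconcave -/
def T_SD : Prop :=
  ∀ (X : Type) [MetricSpace X] (D : ℝ), Sp X D → ∀ q : X,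
    SC (cosh D) (fun z => dist q z ^ 2 / 2) ∧ Lip D (fun z => dist q z ^ 2 / 2)

/-- comparison in terms of `cc` -/
def T_HH : Prop :=
  ∀ (X : Type) [MetricSpace X], CB X → ∀ q x y m : X, Btw x m y → x ≠ q → x ≠ y →
    cosh (dist x m) * cosh (dist x q)
      - sinh (dist x m) * sinh (dist x q) * cc (dist x y) (dist x q) (dist y q)
      ≤ cosh (dist m q)

/-- monotonicity of the comparison angle -/
def T_MO : Prop :=
  ∀ (X : Type) [MetricSpace X], CB X → ∀ z x y x' y' : X, Btw z x' x → Btw z y' y →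
    z ≠ x' → z ≠ y' →
    cc (dist z x') (dist z y') (dist x' y') ≤ cc (dist z x) (dist z y) (dist x y)

/-- the hinge at an interior point of a shortest path -/
def T_HG : Prop :=
  ∀ (X : Type) [MetricSpace X], CB X → ∀ z w u v y : X, Btw z w u → Btw w v y →
    w ≠ u → w ≠ y →
    cosh (dist v z) ≤ cosh (dist z w) * cosh (dist w v)
      + sinh (dist z w) * sinh (dist w v) * cc (dist w u) (dist w y) (dist u y)

/-- bounds and regularity of `cc` -/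
def T_CC : Prop :=
  (∀ a b c : ℝ, 0 < a → 0 < b → |a - b| ≤ c → c ≤ a + b → -1 ≤ cc a b c ∧ cc a b c ≤ 1) ∧
  (∀ a b c : ℝ, 0 < a → 0 < b →
    ContinuousAt (fun p : ℝ × ℝ × ℝ => cc p.1 p.2.1 p.2.2) (a, b, c)) ∧
  (∀ a b c c' : ℝ, 0 < a → 0 < b → 0 ≤ c → c ≤ c' → cc a b c' ≤ cc a b c)

/-- contraction towards a point -/
def T_CO : Prop :=
  ∀ (X : Type) [MetricSpace X] (D : ℝ), Sp X D → ∀ (z x y x' y' : X) (lam : ℝ),
    0 < lam → lam ≤ 1 → Btw z x' x → Btw z y' y → dist z x' = lam * dist z x →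
    dist z y' = lam * dist z y → lam * dist x y ≤ cosh D ^ 2 * dist x' y'

/-! ### Directional derivatives -/

/-- directional derivatives of semiconcave functions -/
def T_DS : Prop :=
  ∀ (X : Type) [MetricSpace X] (Λ : ℝ) (g : X → ℝ), SC Λ g → ∀ z y : X,
    DGe g z y (g y - g z - Λ / 2 * dist z y ^ 2)

/-- sums and multiples -/
def T_DA : Prop :=
  ∀ (X : Type) [MetricSpace X] (f g : X → ℝ) (z y : X) (a b c : ℝ), 0 ≤ c →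
    DGe f z y a → DGe g z y b →
    DGe (fun x => f x + g x) z y (a + b) ∧ DGe (fun x => c * f x) z y (c * a)

/-- the maximal directional derivative and the key inequality for an almost maximal direction -/
def T_ST : Prop :=
  ∀ (X : Type) [MetricSpace X] (D : ℝ), Sp X D → ∀ (g : X → ℝ) (L Λ : ℝ), 0 ≤ L → 0 ≤ Λ →
    Lip L g → SC Λ g → ∀ (z : X) (A : ℝ), 0 < A →
    (∀ w : X, w ≠ z → (g w - g z) / dist z w - Λ / 2 * dist z w ≤ A) →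
    ∀ (ε : ℝ), 0 < ε → ε ≤ 1 → ∀ (w : X), w ≠ z →
    A - ε ^ 2 ≤ (g w - g z) / dist z w - Λ / 2 * dist z w → ∀ γ : ℝ → X, IsGeod γ z w →
    ∀ (y : X) (η : ℝ → X) (θ : ℝ), y ≠ z → IsGeod η z y → DGe g z y θ →
    ∀ s ∈ Ioc (0 : ℝ) (dist z w), ∀ t ∈ Ioc (0 : ℝ) (dist z y),
      θ - D * (2 + L) * ε ≤ A * dist z y * cc s t (dist (γ s) (η t))

/-- one step of the approximate gradient flow -/
def T_SG : Prop :=
  ∀ (X : Type) [MetricSpace X] (D : ℝ), Sp X D → ∀ (g : X → ℝ) (L Λ : ℝ), 0 ≤ L → 0 ≤ Λ →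
    Lip L g → SC Λ g → ∀ (z : X) (ε : ℝ), 0 < ε →
    ∃ (a Δ : ℝ) (β : ℝ → X), 0 ≤ a ∧ a ≤ L ∧ 0 < Δ ∧ Δ ≤ ε ∧ β 0 = z ∧
      (∀ s ∈ Icc (0 : ℝ) Δ, ∀ t ∈ Icc (0 : ℝ) Δ, dist (β s) (β t) = a * |s - t|) ∧
      (∀ (y : X) (θ : ℝ), DGe g z y θ → ∀ s t : ℝ, 0 ≤ s → s ≤ t → t ≤ Δ →
        dist (β t) y ^ 2 / 2 - dist (β s) y ^ 2 / 2 ≤ (t - s) * (-θ + ε)) ∧
      (∀ s t : ℝ, 0 ≤ s → s ≤ t → t ≤ Δ → (a ^ 2 - ε) * (t - s) ≤ g (β t) - g (β s)) ∧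
      (∀ σ : ℝ, SlopeGe g z σ → σ ≤ a + ε)

/-- a piece of an approximate gradient curve -/
structure Seg (g : X → ℝ) (L ε : ℝ) (α : ℝ → X) (r r' : ℝ) (z : X) (a : ℝ) : Prop where
  near : dist z (α r) ≤ ε
  nonneg : 0 ≤ a
  le : a ≤ L
  speed : ∀ s ∈ Icc r r', ∀ t ∈ Icc r r', dist (α s) (α t) = a * |s - t|
  evi : ∀ (y : X) (θ : ℝ), DGe g z y θ → ∀ s t : ℝ, r ≤ s → s ≤ t → t ≤ r' →
    dist (α t) y ^ 2 / 2 - dist (α s) y ^ 2 / 2 ≤ (t - s) * (-θ + ε)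
  en : ∀ s t : ℝ, r ≤ s → s ≤ t → t ≤ r' → (a ^ 2 - ε) * (t - s) ≤ g (α t) - g (α s)
  sl : ∀ σ : ℝ, SlopeGe g z σ → σ ≤ a + ε

/-- approximate gradient curve on `[0,T]` -/
structure AFlow (g : X → ℝ) (L ε : ℝ) (α : ℝ → X) (T : ℝ) : Prop where
  lip : ∀ s ∈ Icc (0 : ℝ) T, ∀ t ∈ Icc (0 : ℝ) T, dist (α s) (α t) ≤ L * |s - t|
  piece : ∀ r ∈ Ico (0 : ℝ) T, ∃ r' z a, r < r' ∧ r' ≤ T ∧ Seg g L ε α r r' z a

/-- existence of approximate gradient curves -/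
def T_AF : Prop :=
  ∀ (X : Type) [MetricSpace X] (D : ℝ), Sp X D → ∀ (g : X → ℝ) (L Λ : ℝ), 0 ≤ L → 0 ≤ Λ →
    Lip L g → SC Λ g → ∀ (x : X) (ε T : ℝ), 0 < ε → 0 ≤ T →
    ∃ α : ℝ → X, α 0 = x ∧ AFlow g L ε α T

/-- real induction: a local bound for the increments gives a global one -/
def T_RI : Prop :=
  ∀ (φ ψ : ℝ → ℝ) (a b : ℝ), a ≤ b → ContinuousOn φ (Icc a b) → ContinuousOn ψ (Icc a b) →
    (∀ r ∈ Ico a b, ∀ ε > 0, ∃ r' > r, ∀ s t : ℝ, r ≤ s → s ≤ t → t ≤ r' → t ≤ b →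
      φ t - φ s ≤ (t - s) * (ψ r + ε)) →
    φ b - φ a ≤ ∫ r in a..b, ψ r

/-- comparison of two approximate gradient curves -/
def T_CM : Prop :=
  ∀ (X : Type) [MetricSpace X] (D : ℝ), Sp X D → ∀ (g : X → ℝ) (L Λ : ℝ), 0 ≤ L → 0 ≤ Λ →
    Lip L g → SC Λ g → ∀ (α β : ℝ → X) (ε δ T : ℝ), 0 < ε → ε ≤ 1 → 0 < δ → δ ≤ 1 → 0 ≤ T →
    AFlow g L ε α T → AFlow g L δ β T → ∀ t ∈ Icc (0 : ℝ) T,
    dist (α t) (β t) ^ 2 ≤ exp (2 * Λ * t) *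
      (dist (α 0) (β 0) ^ 2 + 2 * (1 + L + 3 * Λ * D) * (ε + δ) * t)

/-- existence of gradient curves -/
def T_FL : Prop :=
  ∀ (X : Type) [MetricSpace X] (D : ℝ), Sp X D → ∀ (g : X → ℝ) (L Λ : ℝ), 0 ≤ L → 0 ≤ Λ →
    Lip L g → SC Λ g → ∀ x : X, ∃ α : ℝ → X, α 0 = x ∧ IsFlow L g α

/-- stability of gradient curves -/
def T_SB : Prop :=
  ∀ (X : Type) [MetricSpace X] (D : ℝ), Sp X D → ∀ (g g' f f' : X → ℝ) (L L' Λ c c' δ : ℝ),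
    0 ≤ Λ → 0 ≤ c → 0 ≤ c' → 0 ≤ δ → Continuous f → Continuous f' →
    (∀ z y : X, DGe g z y (f y - f z - Λ / 2 * dist z y ^ 2 - c)) →
    (∀ z y : X, DGe g' z y (f' y - f' z - Λ / 2 * dist z y ^ 2 - c')) →
    (∀ z : X, |f z - f' z| ≤ δ) → ∀ α β : ℝ → X, IsFlow L g α → IsFlow L' g' β →
    ∀ t : ℝ, 0 ≤ t →
    dist (α t) (β t) ^ 2 ≤ exp (2 * Λ * t) *
      (dist (α 0) (β 0) ^ 2 + (4 * δ + 2 * c + 2 * c') * t)

end Pool.Agent.H96.AL
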