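import Pool.Agent.H96.AL.Targets1

/-!
Targets, wave 2: extremal subsets, potentials, invariance.
-/

open Topology Set Filter Real

namespace Pool.Agent.H96.AL

variable {X : Type} [MetricSpace X]

/-- half of the squared distance to `E` -/
noncomputable def hd (E : Set X) (z : X) : ℝ := Metric.infDist z E ^ 2 / 2

/-- regularised logarithm of the distance to `E` -/
noncomputable def lp (E : Set X) (ε : ℝ) (z : X) : ℝ := log (Metric.infDist z E ^ 2 + ε ^ 2) / 2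

/-- `p` is a point of `E` closest to `z` -/
def Foot (E : Set X) (z p : X) : Prop := p ∈ E ∧ ∀ e ∈ E, dist z p ≤ dist z e

/-- `g` drops by at most `C |zp|²` when one moves from `z` to a foot `p` of `z` on an extremal
subset. -/
def Good (C : ℝ) (g : X → ℝ) : Prop :=
  ∀ E : Set X, Extremal E → ∀ z p : X, Foot E z p → g z - C * dist z p ^ 2 ≤ g p

/-! ### Extremal subsets and feet -/

/-- the fundamental inequality at a foot on an extremal subset -/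
def T_EX : Prop :=
  ∀ (X : Type) [MetricSpace X], Geo X → CB X → ∀ E : Set X, Extremal E → ∀ z p : X, Foot E z p →
    ∀ y : X, cosh (dist z y) ≤ cosh (dist z p) * cosh (dist p y)

/-- quadratic form -/
def T_EQ : Prop :=
  ∀ (X : Type) [MetricSpace X] (D : ℝ), Sp X D → ∀ E : Set X, Extremal E → ∀ z p : X,
    Foot E z p → ∀ y : X, dist z y ^ 2 ≤ dist p y ^ 2 + cosh D ^ 2 * dist z p ^ 2

/-- existence of feet, distance to the set -/
def T_FO : Prop :=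
  ∀ (X : Type) [MetricSpace X] [CompactSpace X], ∀ E : Set X, IsClosed E → E.Nonempty → ∀ z : X,
    (∃ p, Foot E z p) ∧ (∀ p, Foot E z p → dist z p = Metric.infDist z E) ∧
    (Metric.infDist z E = 0 ↔ z ∈ E)

/-- good functions: squared distances -/
def T_GD : Prop :=
  ∀ (X : Type) [MetricSpace X] (D : ℝ), Sp X D →
    (∀ a : X, Good (cosh D ^ 2) (fun z => dist a z ^ 2 / 2)) ∧
    (∀ A : Set X, IsClosed A → A.Nonempty → Good (cosh D ^ 2) (hd A))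

/-- good functions: algebra -/
def T_GA : Prop :=
  ∀ (X : Type) [MetricSpace X] (f g : X → ℝ) (C C' c : ℝ), 0 ≤ C → 0 ≤ C' → 0 ≤ c →
    Good C f → Good C' g →
    Good (C + C') (fun z => f z + g z) ∧ Good (max C C') (fun z => min (f z) (g z)) ∧
    Good (c * C) (fun z => c * f z) ∧ Good C (fun _ : X => c)

/-- algebra of Lipschitz and of semiconcave functions -/
def T_SA : Prop :=
  ∀ (X : Type) [MetricSpace X] (f g : X → ℝ) (L L' Λ Λ' c a : ℝ), 0 ≤ L → 0 ≤ L' → 0 ≤ Λ →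
    0 ≤ Λ' → 0 ≤ c →
    (Lip L f → Lip L' g → Lip (L + L') (fun z => f z + g z) ∧
      Lip (max L L') (fun z => min (f z) (g z)) ∧ Lip (c * L) (fun z => c * f z) ∧
      Lip L (fun _ : X => a)) ∧
    (SC Λ f → SC Λ' g → SC (Λ + Λ') (fun z => f z + g z) ∧
      SC (max Λ Λ') (fun z => min (f z) (g z)) ∧ SC (c * Λ) (fun z => c * f z) ∧
      SC Λ (fun _ : X => a))

/-- the function `hd` -/
def T_HD : Prop :=
  ∀ (X : Type) [MetricSpace X] (D : ℝ), Sp X D → ∀ E : Set X, IsClosed E → E.Nonempty →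
    SC (cosh D) (hd E) ∧ Lip D (hd E) ∧
    (Extremal E → ∀ z y : X, DGe (hd E) z y (-(1 + D) * Metric.infDist z E ^ 2))

/-- the function `lp` -/
def T_LP : Prop :=
  ∀ (X : Type) [MetricSpace X] (D : ℝ), Sp X D → ∀ E : Set X, Extremal E → E.Nonempty →
    ∀ ε : ℝ, 0 < ε → ε ≤ 1 →
    Lip (D / ε ^ 2) (lp E ε) ∧ SC (cosh D / ε ^ 2) (lp E ε) ∧ Good (cosh D ^ 2 / ε ^ 2) (lp E ε) ∧
    ∀ z y : X, DGe (lp E ε) z y (-(1 + D))

/-- gradient curves of good functions stay in extremal subsets -/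
def T_IN : Prop :=
  ∀ (X : Type) [MetricSpace X] (D : ℝ), Sp X D → ∀ (g : X → ℝ) (L Λ C L' : ℝ), 0 ≤ L → 0 ≤ Λ →
    0 ≤ C → Lip L g → SC Λ g → Good C g → ∀ α : ℝ → X, IsFlow L' g α →
    ∀ E : Set X, Extremal E → α 0 ∈ E → ∀ t : ℝ, 0 ≤ t → α t ∈ E

/-- closed sets which are invariant under gradient curves of squared distances are extremal -/
def T_CE : Prop :=
  ∀ (X : Type) [MetricSpace X] (D : ℝ), Sp X D → ∀ C : Set X, IsClosed C →
    (∀ (a : X) (α : ℝ → X), IsFlow D (fun z => dist a z ^ 2 / 2) α → α 0 ∈ C →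
      ∀ t : ℝ, 0 ≤ t → α t ∈ C) → Extremal C

/-- unions and intersections of extremal subsets, hulls -/
def T_UN : Prop :=
  ∀ (X : Type) [MetricSpace X] (D : ℝ), Sp X D →
    (∀ E E' : Set X, Extremal E → Extremal E' → Extremal (E ∪ E')) ∧
    (∀ S : Set (Set X), (∀ E ∈ S, Extremal E) → Extremal (⋂₀ S)) ∧
    Extremal (∅ : Set X) ∧
    (∀ x : X, Extremal (hull x) ∧ x ∈ hull x ∧
      (∀ E : Set X, Extremal E → x ∈ E → hull x ⊆ E) ∧ (∀ y ∈ hull x, hull y ⊆ hull x))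

/-! ### Perturbation by potentials -/

/-- the perturbed function with finitely many potentials -/
noncomputable def pert {m : ℕ} (f : X → ℝ) (E : Fin m → Set X) (μ ε : Fin m → ℝ) (z : X) : ℝ :=
  f z + ∑ i, μ i * lp (E i) (ε i) z

/-- properties of the perturbed function -/
def T_PE : Prop :=
  ∀ (X : Type) [MetricSpace X] (D : ℝ), Sp X D → ∀ (f : X → ℝ) (L Λ C : ℝ), 0 ≤ L → 0 ≤ Λ →
    0 ≤ C → Lip L f → SC Λ f → Good C f → ∀ (m : ℕ) (E : Fin m → Set X),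
    (∀ i, Extremal (E i) ∧ (E i).Nonempty) → ∀ (e : ℝ), 0 < e → e ≤ 1 →
    ∃ L' Λ' C' : ℝ, 0 ≤ L' ∧ 0 ≤ Λ' ∧ 0 ≤ C' ∧ ∀ μ ε : Fin m → ℝ,
      (∀ i, 0 ≤ μ i ∧ μ i ≤ 1 ∧ e ≤ ε i ∧ ε i ≤ 1) →
      Lip L' (pert f E μ ε) ∧ SC Λ' (pert f E μ ε) ∧ Good C' (pert f E μ ε)

/-- directional derivatives of the perturbed function; some potentials are split off -/
def T_PD : Prop :=
  ∀ (X : Type) [MetricSpace X] (D : ℝ), Sp X D → ∀ (f : X → ℝ) (Λ : ℝ), 0 ≤ Λ → SC Λ f →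
    ∀ (m : ℕ) (E : Fin m → Set X), (∀ i, Extremal (E i) ∧ (E i).Nonempty) →
    ∀ μ ε : Fin m → ℝ, (∀ i, 0 ≤ μ i ∧ 0 < ε i ∧ ε i ≤ 1) → ∀ z y : X,
    DGe (pert f E μ ε) z y (f y - f z - Λ / 2 * dist z y ^ 2 - (1 + D) * ∑ i, μ i)

/-- gradient curves of the perturbed function do not enter the sets `E i` -/
def T_NE : Prop :=
  ∀ (X : Type) [MetricSpace X] (D : ℝ), Sp X D → ∀ (f : X → ℝ) (L L' : ℝ), 0 ≤ L → Lip L f →
    ∀ (m : ℕ) (E : Fin m → Set X), (∀ i, Extremal (E i) ∧ (E i).Nonempty) →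
    ∀ (μ ε : Fin m → ℝ) (x : X),
    (∀ i, 0 ≤ μ i ∧ μ i ≤ 1 ∧ μ i ≤ Metric.infDist x (E i) ∧ 0 < ε i ∧ ε i ≤ 1) →
    (∀ i, 0 < μ i → ε i ≤ Metric.infDist x (E i) * exp (-((L + m) * D + m + 1) / μ i)) →
    ∀ α : ℝ → X, IsFlow L' (pert f E μ ε) α → α 0 = x → ∀ t : ℝ, 0 ≤ t → ∀ i, 0 < μ i →
      α t ∉ E i

/-- a point of the hull of `x` is a limit of points of the hull outside a given extremal subset
which does not contain `x` -/
def T_DN : Prop :=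
  ∀ (X : Type) [MetricSpace X] (D : ℝ), Sp X D → ∀ (x : X) (E : Set X), Extremal E → x ∉ E →
    hull x ⊆ closure (hull x \ E)

/-- the family of strict gradient curves -/
def T_SF : Prop :=
  ∀ (X : Type) [MetricSpace X] (D : ℝ), Sp X D → ∀ (f : X → ℝ) (L Λ C : ℝ), 0 ≤ L → 0 ≤ Λ →
    0 ≤ C → Lip L f → SC Λ f → Good C f → ∀ (m : ℕ) (E : Fin m → Set X),
    (∀ i, Extremal (E i) ∧ (E i).Nonempty) → ∀ (W : Set X) (η : X → ℝ), ContinuousOn η W →
    (∀ y ∈ W, 0 < η y ∧ η y ≤ 1) →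
    ∃ H : X → ℝ → X, (∀ y ∈ W, H y 0 = y) ∧
      ContinuousOn (fun p : X × ℝ => H p.1 p.2) (W ×ˢ Ici (0 : ℝ)) ∧
      (∀ y ∈ W, ∀ t : ℝ, 0 ≤ t → ∀ i, H y t ∈ E i ↔ y ∈ E i) ∧
      (∀ y ∈ W, ∀ β : ℝ → X, IsFlow L f β → β 0 = y → ∀ t : ℝ, 0 ≤ t →
        dist (H y t) (β t) ^ 2 ≤ exp (2 * Λ * t) * (2 * (1 + D) * m * η y * t))

end Pool.Agent.H96.AL
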