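import Pool.Agent.H96.AL.Targets2

/-!
Targets, wave 3: strainers, packing numbers, the band lemma, slope of the distance to an
extremal subset.
-/

open Topology Set Filter Real

namespace Pool.Agent.H96.AL

variable {X : Type} [MetricSpace X]

/-- the pairs `(a i, b i)` strain the point `p` with accuracy `κ` -/
def Strained {m : ℕ} (a b : Fin m → X) (κ : ℝ) (p : X) : Prop :=
  (∀ i, p ≠ a i ∧ p ≠ b i ∧ cc (dist p (a i)) (dist p (b i)) (dist (a i) (b i)) < -1 + κ ^ 2) ∧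
  (∀ i j, i ≠ j → cc (dist p (a i)) (dist p (a j)) (dist (a i) (a j)) < κ ∧
    cc (dist p (a i)) (dist p (b j)) (dist (a i) (b j)) < κ ∧
    cc (dist p (b i)) (dist p (b j)) (dist (b i) (b j)) < κ)

/-- being strained is an open condition -/
def T_OS : Prop :=
  ∀ (X : Type) [MetricSpace X] (m : ℕ) (a b : Fin m → X) (κ : ℝ),
    IsOpen {p : X | Strained a b κ p}

/-- the excess of a strained pair is almost constant -/
def T_XS : Prop :=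
  ∀ (X : Type) [MetricSpace X], Geo X → CB X → ∀ (a b : X) (κ : ℝ) (O : Set X), 0 < κ → κ ≤ 1 →
    IsOpen O → (∀ w ∈ O, w ≠ a ∧ w ≠ b ∧ cc (dist w a) (dist w b) (dist a b) ≤ -1 + κ ^ 2) →
    ∀ (x y : X) (γ : ℝ → X), IsGeod γ x y → (∀ s ∈ Icc (0 : ℝ) (dist x y), γ s ∈ O) →
    |(dist x a + dist x b) - (dist y a + dist y b)| ≤ 2 * κ * dist x y

/-- moving towards the points of a strainer -/
def T_MV : Prop :=
  ∀ (X : Type) [MetricSpace X], Geo X → CB X → ∀ (m : ℕ) (a b : Fin m → X) (κ : ℝ) (O : Set X),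
    0 < κ → κ ≤ 1 / 10 → IsOpen O → (∀ w ∈ O, Strained a b κ w) → ∀ y ∈ O, ∀ i : Fin m, ∀ ε > 0,
    (∀ γ : ℝ → X, IsGeod γ y (a i) → ∀ᶠ s in 𝓝[>] (0 : ℝ),
      dist (γ s) y = s ∧ dist (γ s) (a i) = dist y (a i) - s ∧
      ∀ j, j ≠ i → |dist (γ s) (a j) - dist y (a j)| ≤ (3 * κ + ε) * s) ∧
    (∀ γ : ℝ → X, IsGeod γ y (b i) → ∀ᶠ s in 𝓝[>] (0 : ℝ),
      dist (γ s) y = s ∧ dist y (a i) + (1 - κ ^ 2 - ε) * s ≤ dist (γ s) (a i) ∧
      ∀ j, j ≠ i → |dist (γ s) (a j) - dist y (a j)| ≤ (3 * κ + ε) * s)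

/-- openness of the distance coordinates -/
def T_OP : Prop :=
  ∀ (X : Type) [MetricSpace X] [CompactSpace X], Geo X → CB X → ∀ (m : ℕ) (a b : Fin m → X)
    (κ : ℝ) (O : Set X), 0 < κ → κ ≤ 1 / (12 * (m + 1)) → IsOpen O →
    (∀ w ∈ O, Strained a b κ w) → ∀ (p : X) (ρ : ℝ), 0 < ρ → Metric.closedBall p ρ ⊆ O →
    ∀ v : Fin m → ℝ, ∑ i, |v i - dist p (a i)| < ρ / 4 →
    ∃ y ∈ Metric.ball p ρ, ∀ i, dist y (a i) = v i

/-- a new pair of the strainer -/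
def T_NS : Prop :=
  ∀ (X : Type) [MetricSpace X], Geo X → CB X → ∀ (m : ℕ) (a b : Fin m → X) (κ : ℝ) (O : Set X),
    0 < κ → κ ≤ 1 / 10 → IsOpen O → (∀ w ∈ O, Strained a b κ w) → ∀ p ∈ O, ∃ ρ > 0,
    ∀ x ∈ Metric.ball p ρ, ∀ y ∈ Metric.ball p ρ, x ≠ y →
    (∀ i, |dist x (a i) - dist y (a i)| ≤ κ * dist x y) →
    ∃ (a' b' : Fin (m + 1) → X) (q : X), q ∈ O ∧ Strained a' b' (8 * κ) q

/-- strainers bound the Hausdorff dimension from below -/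
def T_DM : Prop :=
  ∀ (X : Type) [MetricSpace X] (m : ℕ) (a : Fin m → X) (p : X) (r : ℝ), 0 < r →
    (∀ v : Fin m → ℝ, ∑ i, |v i - dist p (a i)| < r → ∃ y, ∀ i, dist y (a i) = v i) →
    (m : ENNReal) ≤ dimH (univ : Set X)

/-- a ball with distance coordinates -/
def T_CH : Prop :=
  ∀ (X : Type) [MetricSpace X] (D : ℝ), Sp X D → dimH (univ : Set X) < ⊤ → Nonempty X →
    ∃ (m : ℕ) (a : Fin m → X) (p : X) (ρ c : ℝ), 0 < ρ ∧ 0 < c ∧
      (∀ x ∈ Metric.ball p ρ, ∀ y ∈ Metric.ball p ρ, x ≠ y →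
        ∃ i, c * dist x y ≤ |dist x (a i) - dist y (a i)|) ∧
      (∀ q r, 0 < r → Metric.closedBall q r ⊆ Metric.ball p ρ → ∀ v : Fin m → ℝ,
        ∑ i, |v i - dist q (a i)| < r / 4 → ∃ y ∈ Metric.ball q r, ∀ i, dist y (a i) = v i)

/-- `s` is `ε`-separated -/
def Sepd (ε : ℝ) (s : Finset X) : Prop := ∀ x ∈ s, ∀ y ∈ s, x ≠ y → ε ≤ dist x y

/-- every `ε`-separated subset of `A` has at most `N` points -/
def PackLe (A : Set X) (ε N : ℝ) : Prop :=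
  ∀ s : Finset X, (↑s : Set X) ⊆ A → Sepd ε s → (s.card : ℝ) ≤ N

/-- some `ε`-separated subset of `A` has at least `N` points -/
def PackGe (A : Set X) (ε N : ℝ) : Prop :=
  ∃ s : Finset X, (↑s : Set X) ⊆ A ∧ Sepd ε s ∧ N ≤ (s.card : ℝ)

/-- packing numbers of a ball with distance coordinates -/
def T_PL : Prop :=
  ∀ (X : Type) [MetricSpace X] (m : ℕ) (a : Fin m → X) (p : X) (ρ c : ℝ), 0 < ρ → 0 < c →
    (∀ x ∈ Metric.ball p ρ, ∀ y ∈ Metric.ball p ρ, x ≠ y →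
      ∃ i, c * dist x y ≤ |dist x (a i) - dist y (a i)|) →
    (∀ q r, 0 < r → Metric.closedBall q r ⊆ Metric.ball p ρ → ∀ v : Fin m → ℝ,
      ∑ i, |v i - dist q (a i)| < r / 4 → ∃ y ∈ Metric.ball q r, ∀ i, dist y (a i) = v i) →
    ∃ c₁ C₁ : ℝ, 0 < c₁ ∧ 0 < C₁ ∧ ∀ ε : ℝ, 0 < ε → ε ≤ 1 →
      PackGe (Metric.ball p ρ) ε (c₁ * (1 / ε) ^ m) ∧ PackLe (Metric.ball p ρ) ε (C₁ * (1 / ε) ^ m)

/-- packing numbers of small balls are bounded by means of the packing numbers of the whole space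
(Cantor set argument) -/
def T_CA : Prop :=
  ∀ (X : Type) [MetricSpace X] (D : ℝ), Sp X D → ∀ (n : ℕ) (C : ℝ), 0 < C →
    (∀ ε : ℝ, 0 < ε → ε ≤ 1 → PackLe (univ : Set X) ε (C * (1 / ε) ^ n)) →
    ∀ (x : X) (r ε : ℝ), 0 < r → 0 < ε → ε ≤ r →
      PackLe (Metric.closedBall x r) ε ((12 * cosh D ^ 2) ^ n * (r / ε) ^ n)

/-- packing numbers of all balls -/
def T_PG : Prop :=
  ∀ (X : Type) [MetricSpace X] (D : ℝ), Sp X D → dimH (univ : Set X) < ⊤ → Nonempty X →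
    ∃ (n : ℕ) (c C : ℝ), 0 < c ∧ 0 < C ∧ ∀ (x : X) (r ε : ℝ), 0 < r → r ≤ D → 0 < ε → ε ≤ r →
      PackGe (Metric.ball x r) ε (c * (r / ε) ^ n) ∧
      PackLe (Metric.closedBall x r) ε (C * (r / ε) ^ n)

/-- the microscopic part of the band lemma: geometry of one point `y` of the band -/
def T_BM : Prop :=
  ∀ (X : Type) [MetricSpace X] (D R c : ℝ), Sp X D → 0 < R → 0 < c → c ≤ 1 / 100 →
    ∃ s₀ : ℝ, 0 < s₀ ∧ ∀ (z q q' q₂ y w u : X) (s lam t : ℝ), 0 < s → s ≤ s₀ →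
      0 < lam → lam ≤ 1 → 0 ≤ t → t ≤ 1 / 2 → R ≤ dist z y →
      dist z q = s → dist z q' = s → dist q q' = 2 * s → dist q q₂ = s → dist z q₂ = 2 * s →
      |dist q y - dist z y| ≤ c * s → |dist q' y - dist z y| ≤ c * s →
      |dist q₂ y - dist z y| ≤ 2 * c * s →
      Btw z w y → dist z w = lam * dist z y → dist z w ≤ D / R * s → s ≤ D / R * dist z w →
      Btw q u w → dist q u = (1 - t) * dist q w →
      |(s ^ 2 + dist z u ^ 2 - dist q u ^ 2) / (2 * s) - t * s| ≤ 1000 * (D / R) ^ 2 * c * s ∧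
      dist z u ≤ 4 * (D / R) * s

/-- slopes of distance functions along the middle half of a shortest path to a foot -/
def T_BS : Prop :=
  ∀ (X : Type) [MetricSpace X] (D R c : ℝ), Sp X D → 0 < R → 0 < c →
    ∃ δ₁ : ℝ, 0 < δ₁ ∧ ∀ (z p y : X) (γ : ℝ → X), IsGeod γ z p → 0 < dist z p →
      dist z p ≤ δ₁ → (∀ s ∈ Icc (0 : ℝ) (dist z p), R ≤ dist (γ s) y) →
      (∀ s ∈ Icc (0 : ℝ) (dist z p),
        cosh (dist (γ s) y) ≤ cosh (dist (γ s) p) * cosh (dist p y)) →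
      dist p y - dist z y ≤ c * dist z p →
      ∀ s ∈ Icc (dist z p / 4) (3 * dist z p / 4), ∀ t ∈ Icc (dist z p / 4) (3 * dist z p / 4),
        |dist (γ s) y - dist (γ t) y| ≤ 5 * c * |s - t|

/-- counting the points which are almost orthogonal to a short segment -/
def T_BC : Prop :=
  ∀ (X : Type) [MetricSpace X] (D R C : ℝ) (n : ℕ), Sp X D → 0 < R → R ≤ 1 → 0 < C →
    (∀ (x : X) (r ε : ℝ), 0 < r → r ≤ D → 0 < ε → ε ≤ r →
      PackLe (Metric.closedBall x r) ε (C * (r / ε) ^ n)) →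
    ∃ C' : ℝ, 0 < C' ∧ ∀ c ε : ℝ, 0 < c → c ≤ 1 / 100 → 0 < ε → ε ≤ c →
      ∃ s₀ : ℝ, 0 < s₀ ∧ ∀ (z q q' q₂ : X) (s : ℝ), 0 < s → s ≤ s₀ →
        dist z q = s → dist z q' = s → dist q q' = 2 * s → dist q q₂ = s → dist z q₂ = 2 * s →
        ∀ B : Finset X, Sepd ε B →
        (∀ y ∈ B, R ≤ dist z y ∧ |dist q y - dist z y| ≤ c * s ∧
          |dist q' y - dist z y| ≤ c * s ∧ |dist q₂ y - dist z y| ≤ 2 * c * s) →
        (B.card : ℝ) ≤ C' * c * (1 / ε) ^ n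

/-- the band lemma -/
def T_BL : Prop :=
  ∀ (X : Type) [MetricSpace X] (D : ℝ), Sp X D → dimH (univ : Set X) < ⊤ → ∀ (y₁ : X) (R : ℝ),
    0 < R → R ≤ 1 → ∃ (Y : Finset X) (c δ₁ : ℝ), Y.Nonempty ∧
      (∀ y ∈ Y, dist y y₁ ≤ R) ∧ 0 < c ∧ 0 < δ₁ ∧
      ∀ z p : X, 2 * R ≤ dist z y₁ → 0 < dist z p → dist z p ≤ δ₁ →
      (∀ w : X, Btw z w p → ∀ y : X, cosh (dist w y) ≤ cosh (dist w p) * cosh (dist p y)) →
      2 * (Y.filter (fun y => dist p y - dist z y ≤ c * dist z p)).card ≤ Y.card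

/-- a sequence of small moves -/
def T_MS : Prop :=
  ∀ (X : Type) [MetricSpace X] (D R : ℝ), Sp X D → 0 < R →
    ∃ C : ℝ, 0 < C ∧ ∀ (l : List X) (z : X) (s : ℝ), 0 < s →
      (∀ y ∈ l, R + s * l.length ≤ dist z y) →
      ∃ z' : X, dist z z' ≤ s * l.length ∧ ∀ p' : X, ∀ η : ℝ, dist p' z' ≤ η →
        cosh (dist p' z) + sinh s * ((l.map (fun y => dist p' y - dist z' y)).sum
          - l.length * (s * l.length + C * (η + s * l.length) ^ 2)) ≤ cosh (dist p' z')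

/-- slope of the distance to an extremal subset -/
def T_RR : Prop :=
  ∀ (X : Type) [MetricSpace X] (D : ℝ), Sp X D → dimH (univ : Set X) < ⊤ →
    ∃ c₁ δ₁ : ℝ, 0 < c₁ ∧ c₁ ≤ 1 ∧ 0 < δ₁ ∧ ∀ E : Set X, Extremal E → E.Nonempty → ∀ z : X,
      0 < Metric.infDist z E → Metric.infDist z E < δ₁ →
      SlopeGe (hd E) z (c₁ * Metric.infDist z E)

/-- boundedly many directions -/
def T_DR : Prop :=
  ∀ (X : Type) [MetricSpace X] (D : ℝ), Sp X D → dimH (univ : Set X) < ⊤ →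
    ∃ N : ℕ, ∀ (x : X) (a : Fin N → X), (∀ i, a i ≠ x) →
      (∀ i j, i < j → dist x (a j) ≤ dist x (a i)) →
      (∀ i j, i < j → cc (dist x (a i)) (dist x (a j)) (dist (a i) (a j)) ≤ 3 / 4) → False

end Pool.Agent.H96.AL
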