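import Pool.Agent.H96.AL.Targets3
import Pool.Agent.H96.AL.Iface

/-!
Targets, wave 4: conical functions, finiteness of the set of strata, push-off, assembly.
-/

open Topology Set Filter Real

namespace Pool.Agent.H96.AL

variable {X : Type} [MetricSpace X]

/-- a conical function at every point -/
def T_CF : Prop :=
  ∀ (X : Type) [MetricSpace X] (D : ℝ), Sp X D → dimH (univ : Set X) < ⊤ → ∀ x : X,
    ∃ (F : X → ℝ) (c ρ : ℝ), 0 < c ∧ 0 < ρ ∧ Lip D F ∧ SC (cosh D) F ∧ Good (cosh D ^ 2) F ∧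
      F x = 0 ∧ ∀ z, dist x z < ρ → F z ≤ -c * dist x z

/-- gradient curves of a conical function -/
def T_CT : Prop :=
  ∀ (X : Type) [MetricSpace X] (F : X → ℝ) (x : X) (Λ c ρ : ℝ), 0 ≤ Λ → 0 < c → 0 < ρ →
    SC Λ F → Continuous F → F x = 0 → (∀ z, dist x z < ρ → F z ≤ -c * dist x z) →
    ∃ ρ' : ℝ, 0 < ρ' ∧ ρ' ≤ ρ ∧ ∀ (L : ℝ) (α : ℝ → X), IsFlow L F α → dist x (α 0) < ρ' →
      ∀ t : ℝ, 0 ≤ t → dist x (α t) ≤ dist x (α 0) ∧ (4 * ρ' / c ≤ t → α t = x)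

/-- hulls of nearby points -/
def T_NB : Prop :=
  ∀ (X : Type) [MetricSpace X] (D : ℝ), Sp X D → dimH (univ : Set X) < ⊤ → ∀ x : X,
    ∃ ρ : ℝ, 0 < ρ ∧ ∀ y, dist x y < ρ → x ∈ hull y

/-- strict contractions -/
def T_G1 : Prop :=
  ∀ (X : Type) [MetricSpace X] (D : ℝ), Sp X D → dimH (univ : Set X) < ⊤ →
    ∀ (m : ℕ) (E : Fin m → Set X), (∀ i, Extremal (E i) ∧ (E i).Nonempty) →
    ∀ (x : X) (U' : Set X), IsOpen U' → x ∈ U' → ∃ U : Set X, IsOpen U ∧ x ∈ U ∧ U ⊆ U' ∧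
      ∀ O : Set X, IsOpen O → x ∈ O → ∃ h : X → ℝ → X,
        ContinuousOn (fun p : X × ℝ => h p.1 p.2) (U ×ˢ Icc (0 : ℝ) 1) ∧
        (∀ w ∈ U, h w 0 = w ∧ h w 1 ∈ O) ∧
        ∀ w ∈ U, ∀ t ∈ Icc (0 : ℝ) 1, h w t ∈ U' ∧ ∀ i, h w t ∈ E i ↔ w ∈ E i

/-- pushing off an extremal subset -/
def T_PO : Prop :=
  ∀ (X : Type) [MetricSpace X] (D : ℝ), Sp X D → dimH (univ : Set X) < ⊤ →
    ∃ K δ₁ : ℝ, 0 < K ∧ 0 < δ₁ ∧ ∀ (E : Set X), Extremal E → E.Nonempty → ∀ (δ L' : ℝ),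
      0 < δ → δ < δ₁ → ∀ β : ℝ → X, IsFlow L' (fun z => min (hd E z) (δ ^ 2 / 2)) β →
      0 < Metric.infDist (β 0) E → ∀ t : ℝ, 0 ≤ t → dist (β 0) (β t) ≤ K * δ ∧
        (K * (1 + max 0 (log (δ / Metric.infDist (β 0) E))) ≤ t → δ ≤ Metric.infDist (β t) E)

/-- strict push-off -/
def T_G2 : Prop :=
  ∀ (X : Type) [MetricSpace X] (D : ℝ), Sp X D → dimH (univ : Set X) < ⊤ →
    ∀ (m : ℕ) (E : Fin m → Set X), (∀ i, Extremal (E i) ∧ (E i).Nonempty) → ∀ i₀ : Fin m,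
    ∀ x ∈ E i₀, ∀ U' : Set X, IsOpen U' → x ∈ U' → ∃ U : Set X, IsOpen U ∧ x ∈ U ∧ U ⊆ U' ∧
      ∃ (h : X → ℝ → X) (K : Set X), IsCompact K ∧ K ⊆ U' \ E i₀ ∧
        ContinuousOn (fun p : X × ℝ => h p.1 p.2) ((U \ E i₀) ×ˢ Icc (0 : ℝ) 1) ∧
        (∀ w ∈ U \ E i₀, h w 0 = w ∧ h w 1 ∈ K) ∧
        ∀ w ∈ U \ E i₀, ∀ t ∈ Icc (0 : ℝ) 1, h w t ∈ U' ∧ ∀ i, h w t ∈ E i ↔ w ∈ E i

/-- chains of hulls are bounded -/
def T_AC : Prop :=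
  ∀ (X : Type) [MetricSpace X] (D : ℝ), Sp X D → dimH (univ : Set X) < ⊤ →
    ∃ N : ℕ, ∀ y : ℕ → X, ∃ i < N, ¬ hull (y i) ⊂ hull (y (i + 1))

/-- the points with the same hull are dense in the hull -/
def T_DH : Prop :=
  ∀ (X : Type) [MetricSpace X] (D : ℝ), Sp X D → dimH (univ : Set X) < ⊤ → ∀ x : X,
    ∀ y ∈ hull x, ∀ ε > 0, ∃ y' : X, dist y y' < ε ∧ hull y' = hull x

/-- finiteness of the set of strata -/
def T_FN : Prop :=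
  ∀ (X : Type) [MetricSpace X] (D : ℝ), Sp X D → dimH (univ : Set X) < ⊤ →
    (range (fun x : X => hull x)).Finite

/-- the filtration by unions of hulls -/
def T_ZS : Prop :=
  ∀ (X : Type) [MetricSpace X] (D : ℝ), Sp X D → (range (fun x : X => hull x)).Finite →
    ∃ (k : ℕ) (Z : ℕ → Set X), Z 0 = ∅ ∧ Monotone Z ∧ Z k = univ ∧
      (∀ j, Extremal (Z j)) ∧ (∀ j, 0 < j → Nonempty X → (Z j).Nonempty) ∧
      ∀ j, Z (j + 1) \ Z j = ∅ ∨ ∃ x : X, Z (j + 1) \ Z j = stratum x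

/-- the geometric half in curvature `≥ -1` -/
def T_AS : Prop :=
  ∀ (X : Type) [MetricSpace X] (D : ℝ), Sp X D → dimH (univ : Set X) < ⊤ →
    ∃ (m : ℕ) (Z : ℕ → Set X), ATI m Z ∧
      ∀ j, Z (j + 1) \ Z j = ∅ ∨ ∃ x : X, Z (j + 1) \ Z j = stratum x

/-- rescaled metric spaces exist -/
def T_RS : Prop :=
  ∀ (X : Type) [MetricSpace X] (k : ℝ), 0 < k → ∃ (Y : Type) (_ : MetricSpace Y) (e : X ≃ Y),
    ∀ x x' : X, dist (e x) (e x') = k * dist x x'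

/-- rescaling -/
def T_RT : Prop :=
  ∀ (X Y : Type) [MetricSpace X] [MetricSpace Y] (k : ℝ) (e : X ≃ Y), 0 < k →
    (∀ x x' : X, dist (e x) (e x') = k * dist x x') →
    Continuous e ∧ Continuous e.symm ∧
    (IsCompactAlexandrov X → CBB k X → (∃ D, Sp Y D) ∧ dimH (univ : Set Y) < ⊤) ∧
    ∀ x : X, stratum (e x) = e '' stratum x

/-- transfer of the topological input -/
def T_TR : Prop :=
  ∀ (X Y : Type) [TopologicalSpace X] [TopologicalSpace Y] (e : X ≃ₜ Y) (m : ℕ) (Z : ℕ → Set Y),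
    ATI m Z → ATI m (fun j => e ⁻¹' Z j)

end Pool.Agent.H96.AL
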